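import Mathlib
import Pool.Agent.R395.CT.Light
import Pool.Agent.R395.CT.Trans
import Pool.Agent.R395.CT.Alg
import Pool.Agent.R419.CF.Fin
import Pool.Agent.R419.CF.Low

/-!
# A partial algorithm for the cubic curves `x³ + y³ = A`

We construct a partial computable function `φ` on the set of the polynomials `f(x, y)` with integer
coefficients (lists of coefficient lists) with the following properties. Whenever `φ(f)` is defined,
it answers correctly the question whether `f(x, y) = 0` has infinitely many rational solutions. It is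
defined at `x³ + y³ - A` whenever this polynomial has infinitely many rational zeros. Let `D` be
cube-free, prime to `3`, not `±1` modulo `9`, with exactly one prime factor `≡ 2` modulo `3`; then
`φ` answers `false` at `x³ + y³ - D m³` if and only if `E_D(ℚ)` is finite and `Ш(E_D)[3^∞] = 0`,
where `E_D : y² + D y = x³` is the curve `3`-isogenous to `x³ + y³ = D`. The proportion of these `D`
in the class is exactly `∏_{i ≥ 1} (1 - 3^{-i}) = 0.5601...`: for more than 56 percent of the `D`
of the class the algorithm halts and proves the finiteness, without any assumption on `Ш`.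

The arithmetic of the twists is joint work of about forty agents (`Pool/Agent/Y703/CT/*.lean`,
`Pool/Agent/Y703/CX/*.lean`, `Pool/Agent/R419/CF/*.lean`); the two searches, their computability and
Hurwitz's doubling argument are in `Pool/Agent/R395/CT/*.lean` (helper395).
-/

set_option autoImplicit false

open scoped Classical

namespace Pool.Agent.Results.MP_d6ddbd_nt.CubicTwists

/-- the set `Z_f(ℚ)` of the rational zeros of `f = ∑ L_(i,j) x^i y^j` -/
def Zeros (L : List (List ℤ)) : Set (ℚ × ℚ) := {p : ℚ × ℚ |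
  ∑ i ∈ Finset.range L.length, ∑ j ∈ Finset.range (L.getD i []).length,
    (((L.getD i []).getD j 0 : ℤ) : ℚ) * p.1 ^ i * p.2 ^ j = 0}

/-- the polynomial `x³ + y³ - A` -/
def cubic (A : ℤ) : List (List ℤ) := [[-A, 0, 0, 1], [], [], [1]]

/-- the class: `D` cube-free, prime to `3`, not `±1` modulo `9`, exactly one prime factor
congruent to `2` modulo `3` -/
def Class (D : ℕ) : Prop :=
  D ≠ 0 ∧ (∀ p : ℕ, p.Prime → ¬ p ^ 3 ∣ D) ∧ ¬ 3 ∣ D ∧ D % 9 ≠ 1 ∧ D % 9 ≠ 8 ∧
    ∃ q : ℕ, q.Prime ∧ q % 3 = 2 ∧ q ∣ D ∧ ∀ p : ℕ, p.Prime → p ∣ D → p ≠ q → p % 3 = 1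

/-- the curve `y² + D y = x³` over `ℚ` -/
def E (D : ℕ) : WeierstrassCurve ℚ := { a₁ := 0, a₂ := 0, a₃ := (D : ℚ), a₄ := 0, a₆ := 0 }

/-- `E_D(ℚ)` is finite and `Ш(E_D/ℚ)[3^∞] = 0` -/
def TrivialThree (D : ℕ) : Prop :=
  Finite (E D).toAffine.Point ∧
    ∀ (n : ℕ) (x : Pool.Agent.TH841.SH.D.Sha (E D)), 3 ^ n • x = 0 → x = 0

theorem E_eq (D : ℕ) : Pool.Agent.Y703.CT.EQ (Pool.Agent.Y703.CT.WD D) = E D := by
  unfold Pool.Agent.Y703.CT.EQ Pool.Agent.Y703.CT.WD E WeierstrassCurve.map
  simp

theorem three_iff (D : ℕ) : TrivialThree D ↔ Pool.Agent.R395.CT.Triv3 D := by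
  unfold TrivialThree Pool.Agent.R395.CT.Triv3
  rw [E_eq]

theorem class_iff (D : ℕ) : Class D ↔ Pool.Agent.Y703.CT.Cls D := by
  unfold Class Pool.Agent.Y703.CT.Cls Pool.Agent.Y703.CT.Base
  constructor
  · rintro ⟨h1, h2, h3, h4, h5, h6⟩
    exact ⟨⟨h1, h3, h2⟩, h4, h5, h6⟩
  · rintro ⟨⟨h1, h3, h2⟩, h4, h5, h6⟩
    exact ⟨h1, h2, h3, h4, h5, h6⟩

theorem cubic_eq (A : ℤ) : cubic A = Pool.Agent.R395.CT.cubic A := rfl

theorem zeros_eq (A : ℤ) : Zeros (cubic A) = Pool.Agent.R395.CT.Sol A := by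
  ext ⟨x, y⟩
  unfold Zeros cubic Pool.Agent.R395.CT.Sol
  simp only [Set.mem_ofPred_eq, List.length_cons, List.length_nil, Finset.sum_range_succ,
    Finset.sum_range_zero, List.getD_cons_zero, List.getD_cons_succ, List.getD_nil]
  push_cast
  constructor
  · intro h
    linear_combination h
  · intro h
    linear_combination h

theorem sol_class {D : ℕ} (h : TrivialThree D) (hD : D ≠ 0) :
    (Pool.Agent.R395.CT.Sol D).Finite := by
  have h1 := ((three_iff D).1 h).1
  exact Pool.Agent.R395.CT.sol_finite (by exact_mod_cast hD) h1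

theorem sol_two : (Pool.Agent.R395.CT.Sol 2).Finite := by
  have h1 := (Pool.Agent.R395.CT.triv3_of (Pool.Agent.R395.CT.cls_prime Nat.prime_two (by norm_num))
    (Pool.Agent.R395.CT.noSplit_prime Nat.prime_two)).1
  exact Pool.Agent.R395.CT.sol_finite (by norm_num) h1

/-- **Theorem.** There is a partial computable function `φ` from the lists of lists of integers
(polynomials `f(x, y)`) to `{true, false}` such that
(1) if `φ(f)` is defined, then it is `true` if and only if `f` has infinitely many rational zeros;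
(2) for every integer `A`: if `x³ + y³ - A` has infinitely many rational zeros, then `φ` is defined
at `x³ + y³ - A` (with the value `true`, by (1));
(3) for all `D` of the class and all integers `m ≠ 0`: `φ` has the value `false` at
`x³ + y³ - D m³` if and only if `E_D(ℚ)` is finite and `Ш(E_D/ℚ)[3^∞] = 0`; hence `φ` is defined at
`x³ + y³ - D m³` if and only if this is true or there are infinitely many rational zeros;
(4) there are at least `c X / √(log X)` numbers `D ≤ X` of the class, and the proportion of those for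
which `φ` has the value `false` at `x³ + y³ - D` tends exactly to `∏_{i ≥ 1} (1 - 3^{-i})`, which is
greater than `0.56`; so the lower density of the set of the `D` of the class for which `φ` is
defined at `x³ + y³ - D` is at least this number. -/
theorem result :
    ∃ φ : List (List ℤ) →. Bool, Partrec φ ∧
    (∀ L, ∀ r ∈ φ L, (r = true ↔ (Zeros L).Infinite)) ∧
    (∀ A : ℤ, (Zeros (cubic A)).Infinite → (φ (cubic A)).Dom) ∧
    (∀ (D : ℕ) (m : ℤ), Class D → m ≠ 0 → (false ∈ φ (cubic (D * m ^ 3)) ↔ TrivialThree D)) ∧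
    (∀ (D : ℕ) (m : ℤ), Class D → m ≠ 0 →
      ((φ (cubic (D * m ^ 3))).Dom ↔ TrivialThree D ∨ (Zeros (cubic (D * m ^ 3))).Infinite)) ∧
    (∃ c : ℝ, 0 < c ∧ ∃ X₀ : ℕ, ∀ X : ℕ, X₀ ≤ X →
      c * X / Real.sqrt (Real.log X) ≤ (((Finset.Icc 1 X).filter fun D => Class D).card : ℝ)) ∧
    (0.56 : ℝ) < ∏' i : ℕ, (1 - (1 / 3 : ℝ) ^ (i + 1)) ∧
    Filter.Tendsto (fun X : ℕ =>
        (((Finset.Icc 1 X).filter fun D : ℕ => Class D ∧ false ∈ φ (cubic D)).card : ℝ) /
        (((Finset.Icc 1 X).filter fun D => Class D).card : ℝ)) Filter.atTop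
      (nhds (∏' i : ℕ, (1 - (1 / 3 : ℝ) ^ (i + 1)))) := by
  obtain ⟨φ, hφ, hdom, hval⟩ := Pool.Agent.R395.CT.exists_alg
  -- soundness
  have hinf : ∀ L, Pool.Agent.R395.CT.PInf L → (Zeros L).Infinite := by
    intro L h
    obtain ⟨A, rfl, hA⟩ := Pool.Agent.R395.CT.pInf_sound h
    rw [← cubic_eq, zeros_eq]
    exact hA
  have hfin : ∀ L, Pool.Agent.R395.CT.PFin L → ¬ (Zeros L).Infinite := by
    rintro L ⟨⟨D, m⟩, h1, h2, h3⟩
    simp only at h1 h2 h3
    rw [h3, ← cubic_eq, zeros_eq]
    have e : (D : ℤ) * (m * m * m) = (D : ℤ) * m ^ 3 := by ring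
    rw [e, Pool.Agent.R395.CT.sol_scale h2, Set.not_infinite]
    rcases h1 with h1 | ⟨h1, h4⟩
    · rw [h1]
      exact Pool.Agent.R395.CT.sol_one
    · exact Pool.Agent.R395.CT.sol_finite (by exact_mod_cast h1.1.1)
        (Pool.Agent.R395.CT.triv3_of h1 h4).1
  have hsound : ∀ L, ∀ r ∈ φ L, (r = true ↔ (Zeros L).Infinite) := by
    intro L r hr
    rcases hval L r hr with ⟨rfl, h⟩ | ⟨rfl, h⟩
    · exact ⟨fun _ => hinf L h, fun _ => rfl⟩
    · exact ⟨fun h' => Bool.noConfusion h', fun h' => absurd h' (hfin L h)⟩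
  -- completeness for infinitely many zeros
  have hcomp : ∀ A : ℤ, (Zeros (cubic A)).Infinite → (φ (cubic A)).Dom := by
    intro A hA
    rw [zeros_eq] at hA
    exact (hdom _).2 (Or.inl (Pool.Agent.R395.CT.pInf_complete sol_two hA))
  -- the class
  have hcls : ∀ (D : ℕ) (m : ℤ), Class D → m ≠ 0 →
      (false ∈ φ (cubic (D * m ^ 3)) ↔ TrivialThree D) := by
    intro D m hD hm
    have hD' := (class_iff D).1 hD
    have hcf : Pool.Agent.R395.CT.CF D := ⟨hD.1, hD.2.1⟩
    rw [three_iff, Pool.Agent.R395.CT.triv3_iff hD']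
    constructor
    · intro h
      rcases hval _ _ h with ⟨h1, -⟩ | ⟨-, ⟨⟨D', m'⟩, h1, h2, h3⟩⟩
      · exact Bool.noConfusion h1
      · simp only at h1 h2 h3
        have h4 : (D : ℤ) * m ^ 3 = (D' : ℤ) * m' ^ 3 := by
          have := Pool.Agent.R395.CT.cubic_inj h3
          rw [this]
          ring
        have hcf' : Pool.Agent.R395.CT.CF D' := by
          rcases h1 with h1 | ⟨h1, -⟩
          · rw [h1]
            refine ⟨one_ne_zero, fun p hp hd => ?_⟩
            have h5 : 1 < p ^ 3 := Nat.one_lt_pow (by norm_num) hp.one_lt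
            have := Nat.le_of_dvd one_pos hd
            omega
          · exact ⟨h1.1.1, h1.1.2.2⟩
        have h5 := Pool.Agent.R395.CT.CF.unique hcf hcf' hm h2 h4
        subst h5
        rcases h1 with h1 | ⟨-, h1⟩
        · obtain ⟨-, -, -, -, -, q, hq, -, hqd, -⟩ := hD
          rw [h1] at hqd
          exact absurd (Nat.dvd_one.1 hqd) hq.one_lt.ne'
        · exact h1
    · intro h
      have hF : Pool.Agent.R395.CT.PFin (cubic (D * m ^ 3)) := by
        refine ⟨⟨D, m⟩, Or.inr ⟨hD', h⟩, hm, ?_⟩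
        show cubic (D * m ^ 3) = Pool.Agent.R395.CT.cubic ((D : ℤ) * (m * m * m))
        rw [cubic_eq]
        congr 1
        ring
      have hd := (hdom (cubic (D * m ^ 3))).2 (Or.inr hF)
      obtain ⟨r, hr⟩ := Part.dom_iff_mem.1 hd
      rcases hval _ _ hr with ⟨-, h1⟩ | ⟨h1, -⟩
      · exact absurd (hinf _ h1) (hfin _ hF)
      · rw [h1] at hr
        exact hr
  refine ⟨φ, hφ, hsound, hcomp, hcls, ?_, ?_, Pool.Agent.Y461.CX.t_C3.2.2.2, ?_⟩
  · intro D m hD hm
    constructor
    · intro h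
      obtain ⟨r, hr⟩ := Part.dom_iff_mem.1 h
      cases r with
      | true => exact Or.inr ((hsound _ _ hr).1 rfl)
      | false => exact Or.inl ((hcls D m hD hm).1 hr)
    · rintro (h | h)
      · exact Part.dom_iff_mem.2 ⟨false, (hcls D m hD hm).2 h⟩
      · exact hcomp _ h
  · have e2 : ∀ X : ℕ, (Finset.Icc 1 X).filter (fun D => Class D) =
        (Finset.Icc 1 X).filter fun D => Pool.Agent.Y703.CT.Cls D := by
      intro X
      refine Finset.filter_congr fun D _ => ?_
      rw [class_iff]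
    simp only [e2]
    exact Pool.Agent.R419.CF.low
  · have h := Pool.Agent.R419.CF.t_FIN
    unfold Pool.Agent.Y703.CX.c3 at h
    have e2 : ∀ X : ℕ, (Finset.Icc 1 X).filter (fun D => Class D) =
        (Finset.Icc 1 X).filter fun D => Pool.Agent.Y703.CT.Cls D := by
      intro X
      refine Finset.filter_congr fun D _ => ?_
      rw [class_iff]
    have e1 : ∀ X : ℕ, (Finset.Icc 1 X).filter (fun D : ℕ => Class D ∧ false ∈ φ (cubic D)) =
        (Finset.Icc 1 X).filter fun D => Pool.Agent.Y703.CT.Cls D ∧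
          Pool.Agent.Y703.CT.NoSplit D := by
      intro X
      refine Finset.filter_congr fun D _ => ?_
      rw [← class_iff]
      refine and_congr_right fun hC => ?_
      have h1 := hcls D 1 hC one_ne_zero
      rw [one_pow, mul_one] at h1
      rw [h1, three_iff, Pool.Agent.R395.CT.triv3_iff ((class_iff D).1 hC)]
    simp only [e1, e2]
    exact h

end Pool.Agent.Results.MP_d6ddbd_nt.CubicTwists
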