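import Mathlib
import Pool.Agent.R395.FT.Alg
import Pool.Agent.Y667.RZ.Fin2
import Pool.Agent.W672.FK.Lowf
import Pool.Agent.W307.RT.Tors
import Pool.Agent.W513.FK.Parf

/-!
# A partial algorithm for the elliptic curves with full rational 2-torsion

We construct a partial computable function `φ` on the set of the polynomials `f(x, y)` with integer
coefficients (lists of coefficient lists) with the following properties. Whenever `φ(f)` is defined,
it answers correctly the question whether `f(x, y) = 0` has infinitely many rational solutions. For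
the curves `y² = x³ + A x + B` with full rational 2-torsion: `φ` is defined if and only if there are
infinitely many rational points or the 2-Selmer group has order at most 4 (the minimal possible
order: the rank is zero and `Ш[2] = 0`), and `φ` answers `false` exactly in the second case. Hence
`φ` halts, and proves the finiteness, for a positive proportion of all the elliptic curves over `ℚ`
with full rational 2-torsion, ordered by height, without any assumption on `Ш`.

The distribution of the 2-Selmer groups is the theorem `RankZeroProportion` (MP_6073f3_nt) of the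
starting files. The two searches (five points in different classes modulo `2 E(ℚ)`; local tests of
the 2-coverings), their correctness and computability are in `Pool/Agent/R395/FT/*.lean`
(helper395), with the local solubility tests of `Pool/Agent/TH841/AL/*.lean`.
-/

set_option autoImplicit false

namespace Pool.Agent.Results.MP_d6ddbd_nt.FullTwoTorsion

open Finset Filter Topology

/-- the set `Z_f(ℚ)` of the rational zeros of `f = ∑ L_(i,j) x^i y^j` -/
def Zeros (L : List (List ℤ)) : Set (ℚ × ℚ) := {p : ℚ × ℚ |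
  ∑ i ∈ Finset.range L.length, ∑ j ∈ Finset.range (L.getD i []).length,
    (((L.getD i []).getD j 0 : ℤ) : ℚ) * p.1 ^ i * p.2 ^ j = 0}

/-- the polynomial `y² - x³ - A x - B` -/
def weier (A B : ℤ) : List (List ℤ) := [[-B, 0, 1], [-A], [], [-1]]

/-- the curve `y² = x³ + A x + B` over `ℚ` -/
def E (A B : ℤ) : WeierstrassCurve ℚ := ⟨0, 0, 0, (A : ℚ), (B : ℚ)⟩

/-- `y² = x³ + A x + B` is an elliptic curve with full rational 2-torsion -/
def Full (A B : ℤ) : Prop := 4 * A ^ 3 + 27 * B ^ 2 ≠ 0 ∧
  ∃ f : ZMod 2 × ZMod 2 →+ (E A B).toAffine.Point, Function.Injective f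

/-- The local condition at a completion `K` of `ℚ`: there is a point `(x, y)`, `y ≠ 0`, of
`y² = x³ + A x + B` over `K` such that `(x - e) * d e` is a square for all the integer roots `e` of
`x³ + A x + B`. (Every class of `E(K) / 2 E(K)` contains a point with `y ≠ 0`.) -/
def Local (K : Type) [Field K] (A B : ℤ) (d : ℤ → ℤ) : Prop :=
  ∃ x y : K, y ≠ 0 ∧ y ^ 2 = x ^ 3 + A * x + B ∧
    ∀ e : ℤ, e ^ 3 + A * e + B = 0 → IsSquare ((x - e) * d e)

/-- The 2-Selmer group of `y² = x³ + A x + B`, a curve with three integer roots. As `E[2]` is the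
group of the families of signs with product one indexed by the roots, an element of the 2-Selmer
group is a family of classes of nonzero rational numbers modulo squares indexed by the roots `e`,
given by squarefree integers `d e` (`d e = 1` if `e` is not a root), which over `ℝ` and over `ℚ_[p]`
for all primes `p` is the family of the classes of `x - e` for a point of the curve. -/
def Sel2 (A B : ℤ) : Set (ℤ → ℤ) :=
  {d | (∀ e, Squarefree (d e)) ∧ (∀ e : ℤ, e ^ 3 + A * e + B ≠ 0 → d e = 1) ∧ Local ℝ A B d ∧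
    ∀ (p : ℕ) [Fact p.Prime], Local ℚ_[p] A B d}

/-- the 2-Selmer group has at most 4 elements -/
def SmallSel (A B : ℤ) : Prop := (Sel2 A B).Finite ∧ (Sel2 A B).ncard ≤ 4

/-- The pairs `(A, B)` of integers such that `y² = x³ + A x + B` is an elliptic curve with full
rational 2-torsion, there is no prime `p` with `p⁴ ∣ A` and `p⁶ ∣ B`, and the height
`max (4 |A|³) (27 B²)` is at most `H`. Every elliptic curve over `ℚ` with full rational 2-torsion is
isomorphic to `E A B` for exactly one pair with the first two properties. -/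
def Fam (H : ℕ) : Set (ℤ × ℤ) :=
  {c : ℤ × ℤ | Full c.1 c.2 ∧ (∀ p : ℕ, p.Prime → ¬ ((p : ℤ) ^ 4 ∣ c.1 ∧ (p : ℤ) ^ 6 ∣ c.2)) ∧
    4 * |c.1| ^ 3 ≤ H ∧ 27 * c.2 ^ 2 ≤ H}

/-- the proportion of the curves of `S` among the curves of height at most `H` -/
noncomputable def proportion (S : Set (ℤ × ℤ)) (H : ℕ) : ℝ :=
  ((Fam H ∩ S).ncard : ℝ) / (Fam H).ncard

lemma full_iff (A B : ℤ) : Full A B ↔
    4 * A ^ 3 + 27 * B ^ 2 ≠ 0 ∧ Pool.Agent.W307.RT.HasT 2 (Pool.Agent.W307.RT.Sh A B) :=
  and_congr_right fun _ =>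
    (Pool.Agent.W307.RT.tors_iff (G := (Pool.Agent.W307.RT.Sh A B).toAffine.Point) (m := 2)).symm

lemma Fam_eq (H : ℕ) : Fam H = (Pool.Agent.W307.RT.Cv 2 H : Set (ℤ × ℤ)) := by
  classical
  ext c
  unfold Fam Pool.Agent.W307.RT.Cv
  rw [Set.mem_ofPred_eq, mem_coe, mem_filter, full_iff, mem_product, mem_Icc, mem_Icc]
  constructor
  · rintro ⟨⟨h1, h3⟩, h2, h4, h5⟩
    refine ⟨⟨?_, ?_⟩, h1, h4, h5, h2, h3⟩
    · rw [← abs_le]
      have h0 := abs_nonneg c.1
      rcases eq_or_lt_of_le h0 with h6 | h6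
      · rw [← h6]; positivity
      · have : 1 ≤ |c.1| := h6
        nlinarith [mul_nonneg h0 h0, mul_self_nonneg (|c.1| - 1)]
    · rw [← abs_le]
      have h0 := abs_nonneg c.2
      rw [← sq_abs] at h5
      rcases eq_or_lt_of_le h0 with h6 | h6
      · rw [← h6]; positivity
      · have : 1 ≤ |c.2| := h6
        nlinarith
  · rintro ⟨-, h1, h4, h5, h2, h3⟩
    exact ⟨⟨h1, h3⟩, h2, h4, h5⟩

lemma Fam_ncard (H : ℕ) : (Fam H).ncard = (Pool.Agent.W307.RT.Cv 2 H).card := by
  rw [Fam_eq, Set.ncard_coe_finset]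

theorem zeros_eq {e : ℤ × ℤ × ℤ} (hs : e.1 + e.2.1 + e.2.2 = 0) :
    Zeros (Pool.Agent.R395.FT.wei e) = Pool.Agent.R395.FT.Pts e.1 e.2.1 e.2.2 := by
  obtain ⟨e1, e2, e3⟩ := e
  have hs' : (e1 : ℚ) + e2 + e3 = 0 := by
    have : e1 + e2 + e3 = 0 := hs
    exact_mod_cast this
  ext ⟨x, y⟩
  unfold Zeros Pool.Agent.R395.FT.wei Pool.Agent.R395.FT.weier Pool.Agent.R395.FT.Pts
  simp only [Set.mem_ofPred_eq, List.length_cons, List.length_nil, Finset.sum_range_succ,
    Finset.sum_range_zero, List.getD_cons_zero, List.getD_cons_succ, List.getD_nil]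
  push_cast
  constructor
  · intro h
    linear_combination h + x ^ 2 * hs'
  · intro h
    linear_combination h - x ^ 2 * hs'

/-- the roots -/
theorem exists_roots {A B : ℤ} (h : Full A B) : ∃ e : ℤ × ℤ × ℤ, Pool.Agent.R395.FT.Dis e ∧
    weier A B = Pool.Agent.R395.FT.wei e ∧
    ∀ x : ℤ, x ^ 3 + A * x + B = (x - e.1) * (x - e.2.1) * (x - e.2.2) := by
  obtain ⟨hD, hT⟩ := (full_iff A B).1 h
  obtain ⟨F, -, hF⟩ := Pool.Agent.W513.FK.parf
  obtain ⟨-, -, -, -, -, e1, e2, e3, hroot, -, -⟩ := hF (A, B) hD hT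
  have hroot : ∀ x : ℤ, x ^ 3 + A * x + B = (x - e1) * (x - e2) * (x - e3) := hroot
  obtain ⟨hs, hA, hB⟩ := Pool.Agent.W402.FK.coef A B e1 e2 e3 hroot
  obtain ⟨h12, h13, h23⟩ := Pool.Agent.W402.FK.dist A B e1 e2 e3 hD hroot
  refine ⟨(e1, e2, e3), ⟨⟨h12, h13, h23⟩, hs⟩, ?_, hroot⟩
  unfold weier Pool.Agent.R395.FT.wei Pool.Agent.R395.FT.weier
  rw [hA, hB]

/-- **Theorem.** There is a partial computable function `φ` from the lists of lists of integers
(polynomials `f(x, y)`) to `{true, false}` such that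
(1) if `φ(f)` is defined, then it is `true` if and only if `f` has infinitely many rational zeros;
(2) for every curve `y² = x³ + A x + B` with full rational 2-torsion: `φ` has the value `false` at
`y² - x³ - A x - B` if and only if the 2-Selmer group has at most 4 elements;
(3) for every such curve, `φ` is defined at `y² - x³ - A x - B` if and only if the 2-Selmer group has
at most 4 elements or there are infinitely many rational points;
(4) the number of the elliptic curves over `ℚ` with full rational 2-torsion and height at most `H` is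
finite and tends to infinity, and for a positive proportion of them (the lower density is positive)
`φ` has the value `false`. -/
theorem result :
    ∃ φ : List (List ℤ) →. Bool, Partrec φ ∧
    (∀ L, ∀ r ∈ φ L, (r = true ↔ (Zeros L).Infinite)) ∧
    (∀ A B : ℤ, Full A B → (false ∈ φ (weier A B) ↔ SmallSel A B)) ∧
    (∀ A B : ℤ, Full A B →
      ((φ (weier A B)).Dom ↔ SmallSel A B ∨ (Zeros (weier A B)).Infinite)) ∧
    (∀ H : ℕ, (Fam H).Finite) ∧ Tendsto (fun H : ℕ => (Fam H).ncard) atTop atTop ∧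
    ∃ δ : ℝ, 0 < δ ∧ ∀ᶠ H : ℕ in atTop, δ ≤ proportion {c | false ∈ φ (weier c.1 c.2)} H := by
  classical
  obtain ⟨φ, hφ, hdom, hval⟩ := Pool.Agent.R395.FT.exists_alg
  -- soundness
  have hinf : ∀ L, Pool.Agent.R395.FT.PInf L → (Zeros L).Infinite := by
    intro L h
    obtain ⟨e, h1, rfl, h2⟩ := Pool.Agent.R395.FT.pInf_sound h
    rw [zeros_eq h1.2]
    exact h2
  have hfin : ∀ L, Pool.Agent.R395.FT.PFin L → ¬ (Zeros L).Infinite := by
    intro L h
    obtain ⟨e, h1, rfl, h2, -⟩ := Pool.Agent.R395.FT.pFin_sound h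
    rw [zeros_eq h1.2, Set.not_infinite]
    exact h2
  have hsound : ∀ L, ∀ r ∈ φ L, (r = true ↔ (Zeros L).Infinite) := by
    intro L r hr
    rcases hval L r hr with ⟨rfl, h⟩ | ⟨rfl, h⟩
    · exact ⟨fun _ => hinf L h, fun _ => rfl⟩
    · exact ⟨fun h' => Bool.noConfusion h', fun h' => absurd h' (hfin L h)⟩
  have hfalse : ∀ L, Pool.Agent.R395.FT.PFin L → false ∈ φ L := by
    intro L h
    obtain ⟨r, hr⟩ := Part.dom_iff_mem.1 ((hdom L).2 (Or.inr h))
    rcases hval _ _ hr with ⟨-, h1⟩ | ⟨h1, -⟩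
    · exact absurd (hinf _ h1) (hfin _ h)
    · rw [h1] at hr
      exact hr
  -- the exact criterion
  have hsel : ∀ A B : ℤ, Full A B → (false ∈ φ (weier A B) ↔ SmallSel A B) := by
    intro A B hF
    constructor
    · intro h
      rcases hval _ _ h with ⟨h1, -⟩ | ⟨-, h1⟩
      · exact Bool.noConfusion h1
      · obtain ⟨e, h2, h3, -, m, l, h4⟩ := Pool.Agent.R395.FT.pFin_sound h1
        exact Pool.Agent.R395.FT.few_sel hF.1 (Pool.Agent.R395.FT.root_of h2 h3) h4
    · rintro ⟨h1, h2⟩
      obtain ⟨e, h3, h4, h5⟩ := exists_roots hF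
      rw [h4]
      exact hfalse _ (Pool.Agent.R395.FT.pFin_complete h3 h5 h1 h2)
  have ht : Tendsto (fun H : ℕ => (Fam H).ncard) atTop atTop := by
    simp only [Fam_ncard]
    exact Pool.Agent.W307.RT.tendsto_of_low Pool.Agent.W672.FK.lowf
  refine ⟨φ, hφ, hsound, hsel, ?_, fun H => ?_, ht, ?_⟩
  · intro A B hF
    constructor
    · intro h
      obtain ⟨r, hr⟩ := Part.dom_iff_mem.1 h
      cases r with
      | true => exact Or.inr ((hsound _ _ hr).1 rfl)
      | false => exact Or.inl ((hsel A B hF).1 hr)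
    · rintro (h | h)
      · exact Part.dom_iff_mem.2 ⟨false, (hsel A B hF).2 h⟩
      · obtain ⟨e, h3, h4, -⟩ := exists_roots hF
        rw [h4, zeros_eq h3.2] at h
        rw [h4]
        exact (hdom _).2 (Or.inl (Pool.Agent.R395.FT.pInf_complete h3 h))
  · rw [Fam_eq]
    exact finite_toSet _
  · obtain ⟨c, hc, H0, h⟩ := Pool.Agent.Y667.RZ.curvesW
    refine ⟨c, hc, ?_⟩
    filter_upwards [eventually_ge_atTop H0, ht.eventually_ge_atTop 1] with H hH hH1
    obtain ⟨h1, -⟩ := h H hH
    have hpos : (0 : ℝ) < ((Pool.Agent.W307.RT.Cv 2 H).card : ℝ) := by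
      rw [Fam_ncard] at hH1
      exact_mod_cast hH1
    have h2 : (((Pool.Agent.W307.RT.Cv 2 H).filter (fun k : ℤ × ℤ =>
          (Pool.Agent.W307.SE.SelR k.1 k.2).Finite ∧
          (Pool.Agent.W307.SE.SelR k.1 k.2).ncard = 4 ∧
          Module.finrank ℤ (Pool.Agent.W307.RT.Sh k.1 k.2).toAffine.Point = 0) :
            Finset (ℤ × ℤ)) : Set (ℤ × ℤ)) ⊆
        (Fam H ∩ {c | false ∈ φ (weier c.1 c.2)}) := by
      intro k hk
      rw [coe_filter] at hk
      obtain ⟨k1, k2, k3, -⟩ := hk
      have k4 : k ∈ Fam H := by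
        rw [Fam_eq]
        exact k1
      exact ⟨k4, (hsel k.1 k.2 k4.1).2 ⟨k2, k3.le⟩⟩
    have hfinF : (Fam H ∩ {c | false ∈ φ (weier c.1 c.2)}).Finite := by
      refine Set.Finite.subset ?_ Set.inter_subset_left
      rw [Fam_eq]
      exact finite_toSet _
    have h3 := Set.ncard_le_ncard h2 hfinF
    rw [Set.ncard_coe_finset] at h3
    unfold proportion
    rw [Fam_ncard, le_div_iff₀ hpos]
    exact h1.trans (by exact_mod_cast h3)

end Pool.Agent.Results.MP_d6ddbd_nt.FullTwoTorsion
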