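import Pool.Agent.R432.JG.Common
import Pool.Agent.R432.JG.Cube
import Pool.Agent.R432.JG.Alg

/-!
# One partial algorithm for infinitude, and the cubic twists `x³ + y³ = D_t` by `n` primes

`M` is any finite set of primes `≡ 1` modulo `9`, `n = #M`.  `D` runs through the squarefree numbers, prime
to `3` and to `M`, not `±1` modulo `9`, that are divisible by exactly one prime `2` modulo `3`, ordered by
size, and `D_t = D ∏_{l ∈ M} l^{t_l}` for `t ∈ {0, 1, 2} ^ M`.  There is one partial computable function `φ`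
on the polynomials `f(x, y)` (lists of lists of integers) such that:

* whenever `φ(f)` is defined, it is the correct answer to the question whether `f(x, y) = 0` has infinitely
  many rational solutions; it is defined at `x³ + y³ - A` if there are infinitely many;
* for all `M`, `D`, `t` and `m ≠ 0`, `φ` is false at `x³ + y³ - D_t m³` iff `E_{D_t}(ℚ)` is finite and
  `Ш(E_{D_t}/ℚ)[3^∞] = 0`, where `E_D : y² + D y = x³`;
* the number of the `t` for which `φ` is false at `x³ + y³ - D_t` has in the limit exactly the binomial law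
  `B(3 ^ n, c)`, `c = ∏_{i ≥ 1} (1 - 3^{-i}) = 0.5601...`; and if `n` is large, then for nearly all `D` the
  proportion of these `t` is nearly `c`;
* if `φ` is false at all the `3 ^ n` polynomials and `D ≠ 2`, then for all exponents `e_l ≥ 0` the equation
  `x³ + y³ = D ∏ l^{e_l}` has no solution in any number field contained in `ℚ(ω, ∛l : l ∈ M)`.

The algorithm is that of helper395 (`MP_d6ddbd_nt/CubicTwists`, `R395/CT`), the laws are those of project JL
(`MP_788af2_nt/ManyCubicTwists`), and the points over the cubic radical fields are computed in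
`R432/JG/Cube.lean` (see `MP_8e0b0b_nt/CubicRadicalFields`).

Authors of the parts of project JL: helper962, helper159, helper152, helper916, helper258, helper432; the
binomial law and the law of large numbers for independent events are from `R413/MQ/Bin.lean` (helper413).
-/

set_option autoImplicit false

namespace Pool.Agent.Results.MP_d6ddbd_nt.ManyCubicTwists

open NumberField Filter Topology
open scoped Classical

/-- the set `Z_f(ℚ)` of the rational zeros of `f = ∑ L_(i,j) x^i y^j` -/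
def Zeros (L : List (List ℤ)) : Set (ℚ × ℚ) := {p : ℚ × ℚ |
  ∑ i ∈ Finset.range L.length, ∑ j ∈ Finset.range (L.getD i []).length,
    (((L.getD i []).getD j 0 : ℤ) : ℚ) * p.1 ^ i * p.2 ^ j = 0}

/-- the polynomial `x³ + y³ - A` -/
def cubic (A : ℤ) : List (List ℤ) := [[-A, 0, 0, 1], [], [], [1]]

/-- The curve `E_D : y² + D y = x³` over `ℚ`. -/
def curve (D : ℕ) : WeierstrassCurve ℚ := ⟨0, 0, (D : ℚ), 0, 0⟩

/-- `D` is squarefree, not divisible by `3`, not `±1` modulo `9`, not divisible by the elements of `M`,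
and divisible by exactly one prime that is `2` modulo `3`. -/
def InClass (M : Finset ℕ) (D : ℕ) : Prop :=
  Squarefree D ∧ ¬ 3 ∣ D ∧ D % 9 ≠ 1 ∧ D % 9 ≠ 8 ∧ (∀ l ∈ M, ¬ l ∣ D) ∧
    ∃ q : ℕ, q.Prime ∧ q % 3 = 2 ∧ q ∣ D ∧ ∀ p : ℕ, p.Prime → p ∣ D → p ≠ q → p % 3 = 1

/-- The number `D_t = D ∏_{l ∈ M} l ^ (t l)`, with exponents `0`, `1`, `2`. -/
def twist (M : Finset ℕ) (D : ℕ) (t : {l : ℕ // l ∈ M} → ZMod 3) : ℕ :=
  D * ∏ l : {l : ℕ // l ∈ M}, l.1 ^ (t l).val

/-- `E_D(ℚ)` is finite and `Ш(E_D)[3^∞] = 0`. -/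
def TrivialThree (D : ℕ) : Prop :=
  Finite (curve D).toAffine.Point ∧
    ∀ (n : ℕ) (x : Pool.Agent.TH841.SH.D.Sha (curve D)), 3 ^ n • x = 0 → x = 0

/-- `Ω` is generated by `ω` and cube roots of the elements of `M`. -/
def Closure (M : Finset ℕ) (Ω : Type) [Field Ω] : Prop :=
  ∃ (ω : Ω) (r : ℕ → Ω), ω ^ 2 + ω + 1 = 0 ∧ (∀ l ∈ M, r l ^ 3 = (l : Ω)) ∧
    ∀ S : Subfield Ω, ω ∈ S → (∀ l ∈ M, r l ∈ S) → S = ⊤

/-- The field `F` can be embedded in a number field `Ω = ℚ(ω, ∛l : l ∈ M)`. -/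
def Inside (M : Finset ℕ) (F : Type) [Field F] : Prop :=
  ∃ (Ω : Type) (_ : Field Ω) (_ : NumberField Ω), Closure M Ω ∧ Nonempty (F →+* Ω)

/-- For all exponents `e l ≥ 0` and all number fields `F` inside `Ω` the equation
`x³ + y³ = D ∏_{l ∈ M} l ^ (e l)` has no solution with `x`, `y` in `F`. -/
def NoSolutions (M : Finset ℕ) (D : ℕ) : Prop :=
  ∀ (e : ℕ → ℕ) (F : Type) [Field F] [NumberField F], Inside M F →
    ∀ x y : F, x ^ 3 + y ^ 3 ≠ ((D * ∏ l ∈ M, l ^ e l : ℕ) : F)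

/-- The number of the `t` such that `φ` has the value `false` at `x³ + y³ - D_t`. -/
noncomputable def negative (φ : List (List ℤ) →. Bool) (M : Finset ℕ) (D : ℕ) : ℕ :=
  ((Finset.univ : Finset ({l : ℕ // l ∈ M} → ZMod 3)).filter fun t =>
    false ∈ φ (cubic (twist M D t : ℤ))).card

/-- `φ` has the value `false` at all the `3 ^ n` polynomials `x³ + y³ - D_t`. -/
def AllNegative (φ : List (List ℤ) →. Bool) (M : Finset ℕ) (D : ℕ) : Prop :=
  ∀ t : {l : ℕ // l ∈ M} → ZMod 3, false ∈ φ (cubic (twist M D t : ℤ))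

/-- The number of the `D ≤ X` in the class with the property `Q`. -/
noncomputable def num (M : Finset ℕ) (Q : ℕ → Prop) (X : ℕ) : ℕ :=
  ((Finset.Icc 1 X).filter fun D => InClass M D ∧ Q D).card

/-- `c = ∏_{i ≥ 1} (1 - 3^{-i})`. -/
noncomputable def c : ℝ := ∏' i : ℕ, (1 - (1 / 3 : ℝ) ^ (i + 1))

section proof

open Pool.Agent.R432.JG (Cl cl_iff triv_iff tw_cls pre_of law_pat twN all_goodK)
open Pool.Agent.R413.MQ.Bin (cnt cnt_card cnt_congr N law_eq lln cnt_union)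

theorem num_eq (M : Finset ℕ) (Q : ℕ → Prop) (X : ℕ) : num M Q X = cnt (Cl M) Q X := by
  unfold num
  symm
  refine cnt_card fun D => ?_
  rw [Finset.mem_filter, show InClass M D ↔ Cl M D from (cl_iff M D).symm]

theorem triv_eq {M : Finset ℕ} (hM : ∀ l ∈ M, l.Prime ∧ l % 9 = 1) {D : ℕ} (hD : Cl M D)
    (t : {l : ℕ // l ∈ M} → ZMod 3) :
    TrivialThree (twist M D t) ↔ Pool.Agent.Y703.CT.NoSplit (twN D M t) :=
  triv_iff (tw_cls (t := t) hD.2.1 (pre_of hM hD))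

/-- the property of `φ` used for the laws -/
def Decides (φ : List (List ℤ) →. Bool) : Prop :=
  ∀ (D : ℕ) (m : ℤ), Pool.Agent.Y703.CT.Cls D → m ≠ 0 →
    (false ∈ φ (cubic (D * m ^ 3)) ↔ Pool.Agent.Y703.CT.NoSplit D)

theorem neg_iff {φ : List (List ℤ) →. Bool} (hφ : Decides φ) {M : Finset ℕ}
    (hM : ∀ l ∈ M, l.Prime ∧ l % 9 = 1) {D : ℕ} (hD : Cl M D) (t : {l : ℕ // l ∈ M} → ZMod 3) :
    false ∈ φ (cubic (twist M D t : ℤ)) ↔ Pool.Agent.Y703.CT.NoSplit (twN D M t) := by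
  have h := hφ (twN D M t) 1 (tw_cls (t := t) hD.2.1 (pre_of hM hD)) one_ne_zero
  rw [one_pow, mul_one] at h
  exact h

theorem negative_eq {φ : List (List ℤ) →. Bool} (hφ : Decides φ) {M : Finset ℕ}
    (hM : ∀ l ∈ M, l.Prime ∧ l % 9 = 1) {D : ℕ} (hD : Cl M D) :
    negative φ M D = N (Finset.univ : Finset ({l : ℕ // l ∈ M} → ZMod 3))
      (fun t D => Pool.Agent.Y703.CT.NoSplit (twN D M t)) D := by
  unfold negative N
  refine congrArg Finset.card ?_
  ext t
  rw [Finset.mem_filter, Finset.mem_filter]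
  exact and_congr_right fun _ => neg_iff hφ hM hD t

theorem nosol {M : Finset ℕ} (hM : ∀ l ∈ M, l.Prime ∧ l % 9 = 1) {D : ℕ} (hI : InClass M D)
    (hN : ∀ t, Pool.Agent.Y703.CT.NoSplit (twN D M t)) (hD2 : D ≠ 2) :
    NoSolutions M D := by
  rintro e F _ _ ⟨Ω, i1, i2, ⟨ω, r, h1, h2, h3⟩, ⟨f⟩⟩ x y hxy
  have hC : Cl M D := (cl_iff M D).2 hI
  obtain ⟨-, hfin, -⟩ := all_goodK hC.2.1 (pre_of hM hC) hN ω h1 r h2 h3
  have hr0 : ∀ l ∈ M, r l ≠ 0 := by
    intro l hl h0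
    have h4 := h2 l hl
    rw [h0] at h4
    exact (Nat.cast_ne_zero.2 (hM l hl).1.ne_zero) (by rw [← h4]; norm_num)
  set μ : Ω := ∏ l ∈ M, r l ^ e l with hμ
  have hμ0 : μ ≠ 0 := Finset.prod_ne_zero_iff.2 fun l hl => pow_ne_zero _ (hr0 l hl)
  have hμ3 : μ ^ 3 = ((∏ l ∈ M, l ^ e l : ℕ) : Ω) := by
    rw [hμ, ← Finset.prod_pow]
    push_cast
    refine Finset.prod_congr rfl fun l hl => ?_
    rw [← pow_mul, mul_comm, pow_mul, h2 l hl]
  have h4 := congrArg f hxy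
  rw [map_add, map_pow, map_pow, map_natCast] at h4
  refine Pool.Agent.R432.JG.Cube.no_sol (fun l hl => (hM l hl).1) h1 h2 h3
    (fun l hl => (hM l hl).2) hI.1 hI.2.1 hI.2.2.1 hI.2.2.2.1 hD2 hI.2.2.2.2.1 hfin
    (f x / μ) (f y / μ) ?_
  rw [div_pow, div_pow, ← add_div, h4, hμ3]
  push_cast
  rw [mul_div_assoc, div_self, mul_one]
  have h5 := pow_ne_zero 3 hμ0
  rw [hμ3] at h5
  push_cast at h5
  exact h5

end proof

open Pool.Agent.R432.JG (Cl cl_iff law_pat twN tw_cls pre_of)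
open Pool.Agent.R413.MQ.Bin (cnt cnt_card cnt_congr N law_eq lln cnt_union)

/-- **Main theorem.** -/
theorem result :
    ∃ φ : List (List ℤ) →. Bool, Partrec φ ∧
    (∀ L, ∀ r ∈ φ L, (r = true ↔ (Zeros L).Infinite)) ∧
    (∀ A : ℤ, (Zeros (cubic A)).Infinite → (φ (cubic A)).Dom) ∧
    (∀ M : Finset ℕ, (∀ l ∈ M, l.Prime ∧ l % 9 = 1) →
      (∃ a : ℝ, 0 < a ∧ ∃ X₀ : ℕ, ∀ X : ℕ, X₀ ≤ X →
        a * X / Real.sqrt (Real.log X) ≤ (num M (fun _ => True) X : ℝ)) ∧
      (∀ D : ℕ, InClass M D →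
        (∀ (t : {l : ℕ // l ∈ M} → ZMod 3) (m : ℤ), m ≠ 0 →
          (false ∈ φ (cubic ((twist M D t : ℤ) * m ^ 3)) ↔ TrivialThree (twist M D t))) ∧
        (AllNegative φ M D → D ≠ 2 → NoSolutions M D)) ∧
      (∀ k : ℕ, Tendsto (fun X : ℕ => (num M (fun D => negative φ M D = k) X : ℝ) /
        (num M (fun _ => True) X : ℝ)) atTop
        (𝓝 (((3 ^ M.card).choose k : ℝ) * c ^ k * (1 - c) ^ (3 ^ M.card - k))))) ∧
    (∀ ε : ℝ, 0 < ε → ∃ n₀ : ℕ, ∀ M : Finset ℕ, (∀ l ∈ M, l.Prime ∧ l % 9 = 1) → n₀ ≤ M.card →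
      ∃ X₀ : ℕ, ∀ X : ℕ, X₀ ≤ X →
        (1 - ε) * (num M (fun _ => True) X : ℝ) ≤
          (num M (fun D => |(negative φ M D : ℝ) / 3 ^ M.card - c| < ε) X : ℝ)) ∧
    (0.56 : ℝ) < c ∧ c < 1 := by
  have hc1 : (0.56 : ℝ) < c := Pool.Agent.R432.JG.c3_gt
  have hc2 : c < 1 := Pool.Agent.Y461.CX.t_C3.2.2.1
  have hc0 : (0 : ℝ) < c := by linarith
  have hcard : ∀ M : Finset ℕ, (Finset.univ : Finset ({l : ℕ // l ∈ M} → ZMod 3)).card =
      3 ^ M.card := fun M => by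
    rw [Finset.card_univ, Fintype.card_fun, ZMod.card, Fintype.card_coe]
  obtain ⟨φ, hφ, hs, hi, hd⟩ := Pool.Agent.R432.JG.Alg.exists_phi
  have hdec : Decides φ := hd
  refine ⟨φ, hφ, hs, hi, fun M hM => ⟨?_, fun D hD => ⟨fun t m hm => ?_, fun h1 h2 => ?_⟩,
    fun k => ?_⟩, fun ε hε => ?_, hc1, hc2⟩
  · obtain ⟨c₀, hc₀, X₀, hlow⟩ := Pool.Agent.R432.JG.low hM
    refine ⟨c₀, hc₀, X₀, fun X hX => (hlow X hX).trans (le_of_eq ?_)⟩
    have : num M (fun _ => True) X = ((Finset.Icc 1 X).filter fun D => Cl M D).card := by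
      rw [num_eq]
      refine cnt_card fun D => ?_
      rw [Finset.mem_filter, and_iff_left trivial]
    rw [this]
  · have hC : Cl M D := (cl_iff M D).2 hD
    rw [triv_eq hM hC t]
    exact hdec (twN D M t) m (tw_cls (t := t) hC.2.1 (pre_of hM hC)) hm
  · have hC : Cl M D := (cl_iff M D).2 hD
    exact nosol hM hD (fun t => (neg_iff hdec hM hC t).1 (h1 t)) h2
  · have h := law_eq (law_pat hM Finset.univ) k
    rw [hcard] at h
    have h' : Tendsto (fun X : ℕ => (num M (fun D => negative φ M D = k) X : ℝ) /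
        (num M (fun _ => True) X : ℝ)) atTop
        (𝓝 (((3 ^ M.card).choose k : ℝ) * Pool.Agent.Y703.CX.c3 ^ k *
          (1 - Pool.Agent.Y703.CX.c3) ^ (3 ^ M.card - k))) := by
      refine h.congr fun X => ?_
      have e := cnt_congr (Fam := Cl M) (Q := fun D => negative φ M D = k)
        (R := fun D => N (Finset.univ : Finset ({l : ℕ // l ∈ M} → ZMod 3))
          (fun t D => Pool.Agent.Y703.CT.NoSplit (twN D M t)) D = k)
        (fun D hD => by rw [negative_eq hdec hM hD]) X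
      rw [num_eq, num_eq, e]
    exact h'
  · obtain ⟨n₀, hn₀⟩ := exists_nat_gt (2 * (c * (1 - c)) / (ε ^ 3))
    refine ⟨n₀, fun M hM hn => ?_⟩
    have h3n : (n₀ : ℝ) < ((3 ^ M.card : ℕ) : ℝ) := by
      have h1 : M.card < 3 ^ M.card := Nat.lt_pow_self (by norm_num)
      exact_mod_cast lt_of_le_of_lt hn h1
    have hT0 : (0 : ℝ) < ((3 ^ M.card : ℕ) : ℝ) := by positivity
    have hne : (Finset.univ : Finset ({l : ℕ // l ∈ M} → ZMod 3)).Nonempty := ⟨0, Finset.mem_univ _⟩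
    obtain ⟨X₀, h⟩ := lln hne hc0.le hc2.le (law_pat hM Finset.univ) hε (show 0 < ε / 2 by linarith)
    refine ⟨X₀, fun X hX => ?_⟩
    have h1 := h X hX
    rw [hcard] at h1
    have h2 : c * (1 - c) / (ε ^ 2 * ((3 ^ M.card : ℕ) : ℝ)) ≤ ε / 2 := by
      have h3 := hn₀.trans h3n
      rw [div_lt_iff₀ (by positivity)] at h3
      rw [div_le_iff₀ (by positivity)]
      nlinarith
    have hA : (0 : ℝ) ≤ (cnt (Cl M) (fun _ => True) X : ℝ) := Nat.cast_nonneg _
    have h4 := h1.trans (mul_le_mul_of_nonneg_right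
      (b := c * (1 - c) / (ε ^ 2 * ((3 ^ M.card : ℕ) : ℝ)) + ε / 2) (c := ε) (by linarith) hA)
    have h5 := cnt_union (Fam := Cl M)
      (Q := fun D => ε ≤ |(N (Finset.univ : Finset ({l : ℕ // l ∈ M} → ZMod 3))
        (fun t D => Pool.Agent.Y703.CT.NoSplit (twN D M t)) D : ℝ) / ((3 ^ M.card : ℕ) : ℝ) - c|)
      (R := fun D => |(negative φ M D : ℝ) / 3 ^ M.card - c| < ε) (fun D hD => by
        by_cases h6 : ε ≤ |(N (Finset.univ : Finset ({l : ℕ // l ∈ M} → ZMod 3))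
          (fun t D => Pool.Agent.Y703.CT.NoSplit (twN D M t)) D : ℝ) / ((3 ^ M.card : ℕ) : ℝ) - c|
        · exact Or.inl h6
        · refine Or.inr ?_
          rw [not_le, ← negative_eq hdec hM hD] at h6
          push_cast at h6
          exact h6) X
    have h6 : (cnt (Cl M) (fun _ => True) X : ℝ) ≤
        (cnt (Cl M) (fun D => ε ≤ |(N (Finset.univ : Finset ({l : ℕ // l ∈ M} → ZMod 3))
        (fun t D => Pool.Agent.Y703.CT.NoSplit (twN D M t)) D : ℝ) / ((3 ^ M.card : ℕ) : ℝ) -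
          c|) X : ℝ) +
        (cnt (Cl M) (fun D => |(negative φ M D : ℝ) / 3 ^ M.card - c| < ε) X : ℝ) := by
      exact_mod_cast h5
    rw [num_eq, num_eq]
    have h7 : (cnt (Cl M) (fun D => ε ≤ |(N (Finset.univ : Finset ({l : ℕ // l ∈ M} → ZMod 3))
        (fun t D => Pool.Agent.Y703.CT.NoSplit (twN D M t)) D : ℝ) / ((3 ^ M.card : ℕ) : ℝ) -
          c|) X : ℝ) ≤ ε * (cnt (Cl M) (fun _ => True) X : ℝ) := h4
    linarith

end Pool.Agent.Results.MP_d6ddbd_nt.ManyCubicTwists
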